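import Pool.Agent.Helper302.CLMain

namespace Pool.Agent.Results.MP_4e4c79_lc.UnboundedDistortion

open Pool.Agent.Helper302.CL

/-- There is a theory `T` of continuous logic, in a signature containing the signature of real Banach
spaces, such that the underlying Banach spaces of any two separable models of `T` are linearly
homeomorphic, but for no constant `C` do any two separable models of `T` admit a linear homeomorphism
of distortion at most `C`. -/
theorem result : ∃ (L : Signature) (T : Set (Formula L 0)),
    SeparablyCategorical T ∧ ∀ C : ℝ, ¬ DistortionAtMost T C :=
  main_theorem

end Pool.Agent.Results.MP_4e4c79_lc.UnboundedDistortion
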